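import Mathlib

/-!
# Singer cycles have the rank property in every dimension

Identify `F ^ n` with the field `K` of order `q ^ n`.  Let `a` be any `n × n` matrix with image `I`
and kernel `J`, so `|I| |J| = q ^ n`.  If `u ∈ K \ {0}` maps some nonzero `v ∈ I` into `J`, then
`u = w / v` with `w ∈ J \ {0}`, and there are at most `(|I| - 1) (|J| - 1) < q ^ n - 1` such `u`.  So
some `u` satisfies `u I ∩ J = 0`, which means that `a u a` has the same kernel as `a`.
-/

namespace Pool.Agent.Results.MP_6598fd_al.SingerCycle

open Matrix Module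

universe u

/-- The rank property: for every singular matrix `a` there is `g ∈ G` with
`rank (a g a) = rank a`. -/
def RankProperty {F : Type u} [Field F] {n : ℕ} (G : Subgroup (GL (Fin n) F)) : Prop :=
  ∀ a : Matrix (Fin n) (Fin n) F, a.det = 0 → ∃ g ∈ G, (a * (g : Matrix _ _ F) * a).rank = a.rank

/-- The special linear group, as a subgroup of the general linear group. -/
def SLGroup (n : ℕ) (F : Type u) [Field F] : Subgroup (GL (Fin n) F) :=
  (Matrix.GeneralLinearGroup.det (n := Fin n) (R := F)).ker

section

variable {F : Type u} [Field F] {n : ℕ} {K : Type} [Field K] [Finite K] [Algebra F K]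
  (b : Basis (Fin n) F K)

theorem exists_unit (I J : Submodule F (Fin n → F)) (h : Nat.card I * Nat.card J = Nat.card K) :
    ∃ u : Kˣ, ∀ v ∈ I, v ≠ 0 → (Algebra.leftMulMatrix b (u : K)) *ᵥ v ∉ J := by
  by_contra hc
  push Not at hc
  choose f hI h0 hJ using hc
  have hFK : Finite F := Finite.of_injective _ (algebraMap F K).injective
  have hfin : Finite (Fin n → F) := inferInstance
  have hr : ∀ u : Kˣ, (Algebra.leftMulMatrix b (u : K)) *ᵥ (f u) =
      b.equivFun ((u : K) * b.equivFun.symm (f u)) := by
    intro u
    have := Algebra.leftMulMatrix_mulVec_repr b (u : K) (b.equivFun.symm (f u))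
    have h1 : ⇑(b.repr (b.equivFun.symm (f u))) = f u := by
      rw [← b.equivFun_apply, LinearEquiv.apply_symm_apply]
    rw [h1] at this
    rw [this, b.equivFun_apply]
  have hne : ∀ u : Kˣ, b.equivFun.symm (f u) ≠ 0 := by
    intro u hu
    exact h0 u ((LinearEquiv.map_eq_zero_iff _).1 hu)
  have hw0 : ∀ u : Kˣ, (Algebra.leftMulMatrix b (u : K)) *ᵥ (f u) ≠ 0 := by
    intro u
    rw [hr]
    intro h'
    have h2 : (u : K) * b.equivFun.symm (f u) = 0 := by simpa using h'
    exact (mul_ne_zero u.ne_zero (hne u)) h2
  let g : Kˣ → {v : I // v ≠ 0} × {w : J // w ≠ 0} := fun u =>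
    (⟨⟨f u, hI u⟩, fun h' => h0 u (by simpa using congrArg Subtype.val h')⟩,
      ⟨⟨_, hJ u⟩, fun h' => hw0 u (by simpa using congrArg Subtype.val h')⟩)
  have hg : Function.Injective g := by
    intro u u' huu
    have h1 : f u = f u' := by
      simpa [g] using congrArg (fun z => ((z.1 : I) : Fin n → F)) huu
    have h2 : (Algebra.leftMulMatrix b (u : K)) *ᵥ (f u) =
        (Algebra.leftMulMatrix b (u' : K)) *ᵥ (f u') := by
      simpa [g] using congrArg (fun z => ((z.2 : J) : Fin n → F)) huu
    rw [hr, hr, h1] at h2
    have h3 := b.equivFun.injective h2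
    exact Units.ext (mul_right_cancel₀ (hne u') h3)
  have hcard : Nat.card Kˣ ≤ (Nat.card I - 1) * (Nat.card J - 1) := by
    have h1 := Nat.card_le_card_of_injective g hg
    rw [Nat.card_prod] at h1
    have h2 : ∀ L : Submodule F (Fin n → F), Nat.card {v : L // v ≠ 0} = Nat.card L - 1 := by
      intro L
      have : Fintype L := Fintype.ofFinite L
      classical
      rw [Nat.card_eq_fintype_card, Nat.card_eq_fintype_card]
      have := Fintype.card_subtype_compl (fun v : L => v = 0)
      simp only [ne_eq]
      simpa using this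
    rwa [h2 I, h2 J] at h1
  rw [Nat.card_units] at hcard
  have hK : 2 ≤ Nat.card K := Finite.one_lt_card
  have hIp : 1 ≤ Nat.card I := Nat.card_pos
  have hJp : 1 ≤ Nat.card J := Nat.card_pos
  obtain ⟨i, hi⟩ : ∃ i, Nat.card I = i + 1 := ⟨Nat.card I - 1, by omega⟩
  obtain ⟨j, hj⟩ : ∃ j, Nat.card J = j + 1 := ⟨Nat.card J - 1, by omega⟩
  rw [← h, hi, hj] at hcard hK
  simp only [Nat.add_sub_cancel] at hcard
  have : (i + 1) * (j + 1) = i * j + i + j + 1 := by ring
  rw [this] at hcard hK
  have hij : i + j = 0 := by omega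
  have hi0 : i = 0 := by omega
  have hj0 : j = 0 := by omega
  subst hi0
  subst hj0
  omega

/-- The Singer cycle: the group of all multiplications by nonzero elements of `K`. -/
noncomputable def singer : Subgroup (GL (Fin n) F) :=
  (Units.map (Algebra.leftMulMatrix b : K →ₐ[F] Matrix (Fin n) (Fin n) F).toRingHom.toMonoidHom).range

theorem singer_cyclic : IsCyclic (singer b) := by
  unfold singer
  exact isCyclic_of_surjective _ (MonoidHom.rangeRestrict_surjective _)

theorem singer_card (hn : finrank F K = n) : Nat.card (singer b) = Nat.card F ^ n - 1 := by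
  unfold singer
  rw [← Nat.card_congr (MonoidHom.ofInjective (f := Units.map
    (Algebra.leftMulMatrix b : K →ₐ[F] Matrix (Fin n) (Fin n) F).toRingHom.toMonoidHom) ?_).toEquiv]
  · rw [Nat.card_units, Module.natCard_eq_pow_finrank (K := F) (V := K), hn]
  · exact Units.map_injective (Algebra.leftMulMatrix_injective b)

theorem singer_rank (hK : Nat.card K = Nat.card F ^ n) (a : Matrix (Fin n) (Fin n) F) :
    ∃ g ∈ singer b, (a * (g : Matrix _ _ F) * a).rank = a.rank := by
  have hFK : Finite F := Finite.of_injective _ (algebraMap F K).injective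
  have hcard : Nat.card (LinearMap.range a.mulVecLin) * Nat.card (LinearMap.ker a.mulVecLin) =
      Nat.card K := by
    rw [hK, Module.natCard_eq_pow_finrank (K := F) (V := LinearMap.range a.mulVecLin),
      Module.natCard_eq_pow_finrank (K := F) (V := LinearMap.ker a.mulVecLin), ← pow_add,
      LinearMap.finrank_range_add_finrank_ker]
    simp
  obtain ⟨u, hu⟩ := exists_unit b _ _ hcard
  refine ⟨Units.map _ u, ⟨u, rfl⟩, ?_⟩
  have hker : LinearMap.ker (a * (Algebra.leftMulMatrix b (u : K)) * a).mulVecLin =
      LinearMap.ker a.mulVecLin := by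
    ext x
    simp only [LinearMap.mem_ker, Matrix.mulVecLin_apply]
    constructor
    · intro hx
      by_contra hne
      refine hu (a *ᵥ x) ⟨x, rfl⟩ hne ?_
      simpa [LinearMap.mem_ker, Matrix.mulVec_mulVec, mul_assoc] using hx
    · intro hx
      rw [← Matrix.mulVec_mulVec, hx, Matrix.mulVec_zero]
  have h1 := LinearMap.finrank_range_add_finrank_ker
    (a * (Algebra.leftMulMatrix b (u : K)) * a).mulVecLin
  have h2 := LinearMap.finrank_range_add_finrank_ker a.mulVecLin
  rw [hker] at h1
  change finrank F (LinearMap.range (a * (Algebra.leftMulMatrix b (u : K)) * a).mulVecLin) =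
    finrank F (LinearMap.range a.mulVecLin)
  omega

end

theorem not_sl_le {F : Type u} [Field F] {n : ℕ} (hn : 2 ≤ n) (G : Subgroup (GL (Fin n) F))
    (hG : IsCyclic G) : ¬ SLGroup n F ≤ G := by
  intro hle
  let i : Fin n := ⟨0, by omega⟩
  let j : Fin n := ⟨1, by omega⟩
  have hij : i ≠ j := by simp [i, j]
  have hd1 : (transvection i j (1 : F)).det = 1 := det_transvection_of_ne i j hij 1
  have hd2 : (transvection j i (1 : F)).det = 1 := det_transvection_of_ne j i hij.symm 1
  let s : GL (Fin n) F := GeneralLinearGroup.mkOfDetNeZero (transvection i j (1 : F))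
    (by rw [hd1]; exact one_ne_zero)
  let t : GL (Fin n) F := GeneralLinearGroup.mkOfDetNeZero (transvection j i (1 : F))
    (by rw [hd2]; exact one_ne_zero)
  have hs : s ∈ SLGroup n F := by
    rw [SLGroup, MonoidHom.mem_ker]
    ext
    simpa [s, GeneralLinearGroup.mkOfDetNeZero] using hd1
  have ht : t ∈ SLGroup n F := by
    rw [SLGroup, MonoidHom.mem_ker]
    ext
    simpa [t, GeneralLinearGroup.mkOfDetNeZero] using hd2
  let : CommGroup G := IsCyclic.commGroup
  have hcomm : s * t = t * s := by
    have := mul_comm (⟨s, hle hs⟩ : G) ⟨t, hle ht⟩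
    exact congrArg Subtype.val this
  have hm : transvection i j (1 : F) * transvection j i (1 : F) =
      transvection j i (1 : F) * transvection i j (1 : F) := by
    have := congrArg (fun g : GL (Fin n) F => (g : Matrix (Fin n) (Fin n) F)) hcomm
    simpa [s, t, GeneralLinearGroup.mkOfDetNeZero] using this
  have h00 := congrFun (congrFun hm i) i
  simp [transvection, Matrix.mul_add, Matrix.add_mul, hij.symm] at h00

/-- For every finite field `F` and every `n ≥ 2` there is a cyclic subgroup of `GL (n, F)`, of order
`|F| ^ n - 1`, which has the rank property and does not contain `SL (n, F)`. -/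
theorem result (F : Type u) [Field F] [Finite F] (n : ℕ) (hn : 2 ≤ n) :
    ∃ G : Subgroup (GL (Fin n) F), IsCyclic G ∧ Nat.card G = Nat.card F ^ n - 1 ∧
      RankProperty G ∧ ¬ SLGroup n F ≤ G := by
  obtain ⟨p, hp⟩ := CharP.exists F
  have hpr : Fact p.Prime := ⟨CharP.char_is_prime F p⟩
  have : NeZero n := ⟨by omega⟩
  let K := FiniteField.Extension F p n
  have hf : finrank F K = n := FiniteField.finrank_extension F p n
  let b : Basis (Fin n) F K := (Module.finBasis F K).reindex (finCongr hf)
  refine ⟨singer b, singer_cyclic b, singer_card b hf, fun a _ => ?_,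
    not_sl_le hn _ (singer_cyclic b)⟩
  exact singer_rank b (FiniteField.natCard_extension F p n) a

end Pool.Agent.Results.MP_6598fd_al.SingerCycle
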